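import Pool.Agent.K7.H65.G4.Lfun

set_option autoImplicit false
set_option linter.unusedSectionVars false

/-!
# The `L`-function of `y² = 2 x⁶ - 30 x⁴ + 150 x² + 6`, entire version
-/

namespace Pool.Agent.K7.H65.G5

open Finset NumberField IsDedekindDomain IsLocalRing
open Pool.Agent.K7.H65.G4
open Pool.Agent.Y696
open Pool.Agent.W189.NF (aV eV Ov card_res finite_res)
open Pool.Agent.H921R2.TatePole (nm two_le_nm)

variable {k : Type} [Field k] [NumberField k]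

/-- the statement on the `L`-function of `X` -/
def IsLXE (k : Type) [Field k] [NumberField k] (F : ℂ → ℂ) : Prop :=
  Differentiable ℂ F ∧ ∃ α : HeightOneSpectrum (𝓞 k) → Fin 4 → ℂ,
    (∀ v : HeightOneSpectrum (𝓞 k), (6 : 𝓞 k) ∉ v.asIdeal →
      ∀ n : ℕ, 1 ≤ n → ∀ (E : Type) [Field E] [Finite E] (φ : 𝓞 k →+* E),
        RingHom.ker φ = v.asIdeal → Nat.card E = Nat.card (𝓞 k ⧸ v.asIdeal) ^ n →
          (pts E : ℂ) = (Nat.card E : ℂ) + 1 - ∑ j, α v j ^ n) ∧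
    ∀ s : ℂ, (3 : ℝ) / 2 < s.re → HasProd (fun v : HeightOneSpectrum (𝓞 k) =>
      open Classical in
      if (6 : 𝓞 k) ∈ v.asIdeal then 1 else
        (∏ j, (1 - α v j * (Nat.card (𝓞 k ⧸ v.asIdeal) : ℂ) ^ (-s)))⁻¹) (F s)

theorem exists_LXE (hH : ∀ v : HeightOneSpectrum (𝓞 k), HBd (aV (E0 k) v) (eV (E0 k) v) (nm v))
    (Lf : ℂ → ℂ) (hm : Differentiable ℂ Lf)
    (hs : ∀ s : ℂ, 3 / 2 < s.re → Lf s = (E0 k).LSeries s) :
    ∃ F : ℂ → ℂ, IsLXE k F ∧ (Lf 1 ≠ 0 → F 1 ≠ 0) := by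
  classical
  have h60 : (6 : 𝓞 k) ≠ 0 := by
    have : ((6 : ℕ) : 𝓞 k) ≠ 0 := by
      rw [Nat.cast_ne_zero]; norm_num
    exact_mod_cast this
  have hfin : {v : HeightOneSpectrum (𝓞 k) | (6 : 𝓞 k) ∈ v.asIdeal}.Finite := by
    have h : {v : HeightOneSpectrum (𝓞 k) | v.asIdeal ∣ Ideal.span {(6 : 𝓞 k)}}.Finite :=
      Ideal.finite_factors (fun h => h60 (Ideal.span_singleton_eq_bot.1 h))
    exact h.subset fun v hv => Ideal.dvd_span_singleton.2 hv
  let T : Finset (HeightOneSpectrum (𝓞 k)) := hfin.toFinset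
  have hT : ∀ v, v ∈ T ↔ (6 : 𝓞 k) ∈ v.asIdeal := fun v => by simp [T]
  choose α β hαβ hαβ' using fun v : HeightOneSpectrum (𝓞 k) =>
    exists_rts (aV (E0 k) v : ℂ) (eV (E0 k) v : ℂ)
  have hGd : Differentiable ℂ (fun s => ∏ v ∈ T, Pv v s ^ 2) :=
    Differentiable.fun_finsetProd fun v _ => (Pv_diff v).pow 2
  have hnm : ∀ v : HeightOneSpectrum (𝓞 k), Nat.card (𝓞 k ⧸ v.asIdeal) = nm v := fun v => rfl
  have h236 : ∀ v : HeightOneSpectrum (𝓞 k), (6 : 𝓞 k) ∉ v.asIdeal →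
      (2 : 𝓞 k) ∉ v.asIdeal ∧ (3 : 𝓞 k) ∉ v.asIdeal := by
    intro v hv
    have e : (6 : 𝓞 k) = 2 * 3 := by norm_num
    constructor
    · intro h; exact hv (by rw [e]; exact v.asIdeal.mul_mem_right _ h)
    · intro h; exact hv (by rw [e]; exact v.asIdeal.mul_mem_left _ h)
  refine ⟨fun s => (Lf s * Lf s) * ∏ v ∈ T, Pv v s ^ 2,
    ⟨(hm.mul hm).mul hGd,
      fun v => ![α v, β v, α v, β v], ?_, ?_⟩, ?_⟩
  · intro v hv n hn E _ _ φ hker hE
    obtain ⟨h2v, h3v⟩ := h236 v hv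
    have : v.asIdeal.IsMaximal := v.isMaximal
    obtain ⟨k1, k2⟩ := aV_card v h2v h3v
    let _ : Field (𝓞 k ⧸ v.asIdeal) := Ideal.Quotient.field v.asIdeal
    have : Finite (𝓞 k ⧸ v.asIdeal) := Ideal.finiteQuotientOfFreeOfNeBot _ v.ne_bot
    have h2k : (2 : 𝓞 k ⧸ v.asIdeal) ≠ 0 := by
      intro h
      apply h2v
      rw [← Ideal.Quotient.eq_zero_iff_mem, map_ofNat]
      exact h
    have h3k : (3 : 𝓞 k ⧸ v.asIdeal) ≠ 0 := by
      intro h
      apply h3v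
      rw [← Ideal.Quotient.eq_zero_iff_mem, map_ofNat]
      exact h
    let ψ : 𝓞 k ⧸ v.asIdeal →+* E := Ideal.Quotient.lift v.asIdeal φ (fun a ha => by
      rw [← hker] at ha; exact ha)
    have h9 := pts_eq h2k h3k (α v) (β v) ((hαβ v).trans k1) ((hαβ' v).trans k2) n hn E ψ hE
    rw [h9]
    simp only [Fin.sum_univ_four, Matrix.cons_val_zero, Matrix.cons_val_one, Matrix.cons_val]
  · intro s hs'
    have h5 := (LSeries_hasProd' (E0 k) hH hs').2
    rw [← hs s hs'] at h5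
    have h5' : HasProd (fun v : HeightOneSpectrum (𝓞 k) => (Pv v s)⁻¹) (Lf s) := h5
    have h6 : HasProd (fun v => if v ∈ T then Pv v s ^ 2 else 1) (∏ v ∈ T, Pv v s ^ 2) := by
      have h0 : HasProd (fun v => if v ∈ T then Pv v s ^ 2 else 1)
          (∏ v ∈ T, if v ∈ T then Pv v s ^ 2 else 1) :=
        hasProd_prod_of_ne_finset_one (fun b hb => by simp [hb])
      convert h0 using 1
      exact prod_congr rfl fun v hv => by simp [hv]
    have h7 := (h5'.mul h5').mul h6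
    convert h7 using 1
    funext v
    have hne := Pv_ne hH v s (by linarith)
    by_cases hv : (6 : 𝓞 k) ∈ v.asIdeal
    · rw [if_pos hv, if_pos ((hT v).2 hv)]
      field_simp
    · rw [if_neg hv, if_neg (fun h => hv ((hT v).1 h)), mul_one, ← mul_inv]
      congr 1
      have h8 : Pv v s = (1 - α v * (nm v : ℂ) ^ (-s)) * (1 - β v * (nm v : ℂ) ^ (-s)) := by
        unfold Pv
        rw [← hαβ v, ← hαβ' v]
        ring
      rw [h8, hnm]
      simp only [Fin.prod_univ_four, Matrix.cons_val_zero, Matrix.cons_val_one, Matrix.cons_val]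
      ring
  · intro h1
    refine mul_ne_zero (mul_ne_zero h1 h1) (prod_ne_zero_iff.2 fun v _ => pow_ne_zero 2 ?_)
    exact Pv_ne hH v 1 (by simp)


end Pool.Agent.K7.H65.G5
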