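import Pool.Agent.R419.CE.Pure
import Pool.Agent.K7.H65.G4.Lfun

set_option autoImplicit false
set_option linter.unusedVariables false
set_option linter.unusedSectionVars false

/-!
# The curve `y² + y = x³` over the pure cubic fields and over their Galois closures: the bound of Hasse
-/

open scoped Classical

namespace Pool.Agent.K7.H65.G5

open NumberField IsDedekindDomain WeierstrassCurve WithZero
open Pool.Agent.Y692.QS (Ei w toC)
open Pool.Agent.Y715.T.RecG (Pq)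
open Pool.Agent.Y703.CT
open Pool.Agent.Y696 Pool.Agent.Y696.CT Pool.Agent.Y696.CTK
open Pool.Agent.Y696.CTE (io Cub PartsE LawE root_int S_GAL aV_bad6 hasseA)
open Pool.Agent.Y696.CTP (S_CMP S_SHP bad_half mkQt Qt)
open Pool.Agent.TH936.CM Pool.Agent.TH936.PU
open Pool.Agent.W189.NF (aV eV)
open Pool.Agent.R419.CE

/-- the data in the field `ℚ(√-3)` of the number `N` -/
theorem data {N : ℕ} (hN : Cls N) : ∃ (n : ℕ) (π : Fin n → Ei) (e : Fin n → ZMod 3),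
    Dt π e ∧ Nonempty (Fin n) ∧ ¬ (9 : ℤ) ∣ Pool.Agent.Y692.QS.nr (pD π e) - 1 ∧
    (∃ ε : ℤ, (ε = 1 ∨ ε = -1) ∧ (ε : Ei) * (N : Ei) = pD π e) ∧ (NoSplit N → Ker π e) := by
  obtain ⟨n, π, e, hdt, hD⟩ := Pool.Agent.Y274.CT.t_exi N hN.1
  refine ⟨n, π, e, hdt, ?_, nr_nine hN hD, ?_, fun hs =>
    Pool.Agent.Y405.CT.cri Pool.Agent.Y350.CT.rec N hN hs _ π _ hdt hD⟩
  · have h1 := Pool.Agent.Y274.CT.t_cnt N hN (Fin n) π e hdt hD
    rw [Fintype.card_fin] at h1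
    have h2 : n ≠ 0 := by omega
    exact ⟨⟨0, by omega⟩⟩
  · rcases hD with h | h
    · exact ⟨1, Or.inl rfl, by rw [h, Int.cast_one, one_mul]⟩
    · exact ⟨-1, Or.inr rfl, by rw [h, Int.cast_neg, Int.cast_one, neg_one_mul, neg_neg]⟩

/-- the bound of Hasse over the cubic extension of `ℚ(√-3)` -/
theorem hasse_ext {K : Type} [Field K] [NumberField K]
    [IsCyclotomicExtension {3} ℚ K] (j : Ei ≃+* 𝓞 K)
    {J : Type} [Fintype J] [Nonempty J] {π : J → Ei} {e : J → ZMod 3} (hD : Dt π e)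
    (h9 : ¬ (9 : ℤ) ∣ Pool.Agent.Y692.QS.nr (pD π e) - 1)
    {F : Type} [Field F] [NumberField F] [Algebra K F] (hdeg : Module.finrank K F = 3) (θ : 𝓞 F)
    (hθ : θ ^ 3 = algebraMap (𝓞 K) (𝓞 F) (j (pD π e))) :
    ∀ v : HeightOneSpectrum (𝓞 F), HBd (aV (E0 F) v) (eV (E0 F) v)
      (Pool.Agent.H921R2.TatePole.nm v) := by
  have hne : pD π e ≠ 0 := Pool.Agent.Y153.CTRAM.ne_zero_of hD
  have hC : Cub j (pD π e) θ := ⟨hdeg, hθ, hne, ncube (cf_pD hD) (nunit hD)⟩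
  have h3D : (3 : Ei) ∣ pD π e - 1 := three_pD hD
  have h3F : ∀ v : HeightOneSpectrum (𝓞 F), (3 : 𝓞 F) ∈ v.asIdeal →
      aV (E0 F) v = 0 ∧ eV (E0 F) v = 0 := fun v hv =>
    aV_bad6 (Pool.Agent.Y696.CTE.partsE.e6 K F j _ θ hC h3D h9 v hv)
  exact hasseA ((algebraMap (𝓞 K) (𝓞 F)).comp (io j)) h3F

/-- the bound of Hasse over a subfield of index two -/
theorem hasse_sub {k K F : Type} [Field k] [NumberField k] [Field K] [NumberField K] [Field F]
    [NumberField F] [Algebra K F] [Algebra k F]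
    [IsCyclotomicExtension {3} ℚ K] (j : Ei ≃+* 𝓞 K)
    {J : Type} [Fintype J] [Nonempty J] {π : J → Ei} {e : J → ZMod 3} (hD : Dt π e)
    (h9 : ¬ (9 : ℤ) ∣ Pool.Agent.Y692.QS.nr (pD π e) - 1)
    (hdeg : Module.finrank K F = 3) (θ : 𝓞 F)
    (hθ : θ ^ 3 = algebraMap (𝓞 K) (𝓞 F) (j (pD π e)))
    (h2 : Module.finrank k F = 2) (hns : ∀ x : k, x ^ 2 ≠ -3) :
    ∀ v : HeightOneSpectrum (𝓞 k), HBd (aV (E0 k) v) (eV (E0 k) v)
      (Pool.Agent.H921R2.TatePole.nm v) := by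
  have hne : pD π e ≠ 0 := Pool.Agent.Y153.CTRAM.ne_zero_of hD
  have hC : Cub j (pD π e) θ := ⟨hdeg, hθ, hne, ncube (cf_pD hD) (nunit hD)⟩
  have h3D : (3 : Ei) ∣ pD π e - 1 := three_pD hD
  obtain ⟨τ, hQ⟩ := mkQt (K := F) h2 (bad_half (K := F) fun w hw =>
    Pool.Agent.Y696.CTE.partsE.e6 K F j _ θ hC h3D h9 w hw)
    hns ((algebraMap (𝓞 K) (𝓞 F)).comp (io j))
  exact hQ.hasseN

/-- the pure cubic fields -/
theorem hasse3 {N : ℕ} (hN : Cls N) (k : Type) [Field k] [NumberField k] (θ : k)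
    (hdeg : Module.finrank ℚ k = 3) (hθ : θ ^ 3 = (N : k)) :
    ∀ v : HeightOneSpectrum (𝓞 k), HBd (aV (E0 k) v) (eV (E0 k) v)
      (Pool.Agent.H921R2.TatePole.nm v) := by
  obtain ⟨n, π, e, hdt, hJ, h9, ⟨ε, hε, hεD⟩, -⟩ := data hN
  obtain ⟨hns, K, F, i1, i2, i3, i4, i5, i6, hcyc, hKF, hkF⟩ := Pool.Agent.Y948.CTP.cmp k hdeg
  obtain ⟨⟨j, hj⟩, -⟩ := Pool.Agent.Y455.CTK.jex K
  obtain ⟨θ', -, hθ'⟩ := root_int (K := K) (F := F) (D := j (pD π e))
    (θ := (ε : F) * algebraMap k F θ) (by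
      rw [mul_pow, ← map_pow, hθ, ← hεD, map_mul, map_intCast, map_natCast, map_natCast]
      rcases hε with rfl | rfl
      · simp
      · simp
        ring)
  exact hasse_sub (k := k) j hdt h9 hKF θ' hθ' hkF hns

/-- the field `ℚ(√-3)` in a field of degree six -/
theorem exists_K {F : Type} [Field F] [NumberField F] (h6 : Module.finrank ℚ F = 6) {x : F}
    (hx : x ^ 2 = -3) : ∃ (K : Type) (_ : Field K) (_ : NumberField K) (_ : Algebra K F),
    IsCyclotomicExtension {3} ℚ K ∧ Module.finrank K F = 3 := by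
  have hirrQ : Irreducible (Polynomial.cyclotomic 3 ℚ) :=
    Polynomial.cyclotomic.irreducible_rat (by norm_num)
  have hcyc : IsCyclotomicExtension {3} ℚ (CyclotomicField 3 ℚ) :=
    Pool.Agent.Y948.CTP.cyc_rat _ _ (CyclotomicField.isCyclotomicExtension 3 ℚ)
  have hζ : IsPrimitiveRoot (IsCyclotomicExtension.zeta 3 ℚ (CyclotomicField 3 ℚ)) 3 :=
    IsCyclotomicExtension.zeta_spec 3 ℚ (CyclotomicField 3 ℚ)
  have hω : ((-1 + x) / 2) ^ 2 + (-1 + x) / 2 + 1 = 0 := by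
    field_simp
    linear_combination hx
  have hζF : IsPrimitiveRoot ((-1 + x) / 2) 3 := by
    rw [← Polynomial.isRoot_cyclotomic_iff, Polynomial.IsRoot.def, Polynomial.cyclotomic_three,
      Polynomial.eval_add, Polynomial.eval_add, Polynomial.eval_pow, Polynomial.eval_X,
      Polynomial.eval_one]
    exact hω
  let φ : CyclotomicField 3 ℚ →ₐ[ℚ] F := (hζ.embeddingsEquivPrimitiveRoots F hirrQ).symm
    ⟨_, (mem_primitiveRoots (by norm_num)).2 hζF⟩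
  let hA : Algebra (CyclotomicField 3 ℚ) F := φ.toRingHom.toAlgebra
  have ht : IsScalarTower ℚ (CyclotomicField 3 ℚ) F :=
    IsScalarTower.of_algebraMap_eq fun q => (φ.commutes q).symm
  have e1 : Module.finrank ℚ (CyclotomicField 3 ℚ) * Module.finrank (CyclotomicField 3 ℚ) F =
    Module.finrank ℚ F := Module.finrank_mul_finrank ℚ (CyclotomicField 3 ℚ) F
  have e3 : Module.finrank ℚ (CyclotomicField 3 ℚ) = 2 := by
    rw [IsCyclotomicExtension.finrank (CyclotomicField 3 ℚ) hirrQ]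
    decide
  refine ⟨CyclotomicField 3 ℚ, inferInstance, inferInstance, hA, hcyc, ?_⟩
  rw [e3, h6] at e1
  omega

/-- the Galois closures: the law and the bound of Hasse -/
theorem law6 {N : ℕ} (hN : Cls N) (F : Type) [Field F] [NumberField F] (θ x : F)
    (hdeg : Module.finrank ℚ F = 6) (hx : x ^ 2 = -3) (hθ : θ ^ 3 = (N : F)) :
    LawE F (NoSplit N) ∧ ∀ v : HeightOneSpectrum (𝓞 F), HBd (aV (E0 F) v) (eV (E0 F) v)
      (Pool.Agent.H921R2.TatePole.nm v) := by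
  obtain ⟨n, π, e, hdt, hJ, h9, ⟨ε, hε, hεD⟩, hK⟩ := data hN
  obtain ⟨K, i1, i2, i3, hcyc, hKF⟩ := exists_K hdeg hx
  obtain ⟨⟨j, hj⟩, -⟩ := Pool.Agent.Y455.CTK.jex K
  obtain ⟨θ', -, hθ'⟩ := root_int (K := K) (F := F) (D := j (pD π e))
    (θ := (ε : F) * θ) (by
      rw [mul_pow, hθ, ← hεD, map_mul, map_intCast, map_natCast]
      rcases hε with rfl | rfl
      · simp
      · simp
        ring)
  refine ⟨?_, hasse_ext j hdt h9 hKF θ' hθ'⟩
  obtain ⟨Lf, q1, q2, q3⟩ := lawE Pool.Agent.Y696.CTK.parts Pool.Agent.Y696.CTE.partsE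
    j hdt h9 hKF θ' hθ'
  exact ⟨Lf, q1, q2, fun hs => q3 (hK hs)⟩

end Pool.Agent.K7.H65.G5
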