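import Mathlib

set_option autoImplicit false

/-!
# The square root of two in fields of degree `3` and `6`
-/

namespace Pool.Agent.K7.H65.G5

open Polynomial

/-- a rational number which is a square in a number field of odd degree is a square -/
theorem sq_odd {k : Type} [Field k] [NumberField k] (h : Odd (Module.finrank ℚ k)) {q : ℚ}
    (hq : IsSquare (q : k)) : IsSquare q := by
  obtain ⟨x, hx⟩ := hq
  by_contra hn
  have hirr : Irreducible (X ^ 2 - C q : ℚ[X]) := by
    rw [X_pow_sub_C_irreducible_iff_of_prime Nat.prime_two]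
    intro b hb
    exact hn ⟨b, by rw [← hb]; ring⟩
  have hint : IsIntegral ℚ x := Algebra.IsIntegral.isIntegral x
  have hmin : minpoly ℚ x = X ^ 2 - C q := by
    refine (minpoly.eq_of_irreducible_of_monic hirr ?_ (monic_X_pow_sub_C _ two_ne_zero)).symm
    rw [map_sub, map_pow, aeval_X, aeval_C, sub_eq_zero, eq_ratCast, hx, sq]
  have hd := minpoly.degree_dvd (K := ℚ) (L := k) hint
  rw [hmin, natDegree_X_pow_sub_C] at hd
  rcases h with ⟨m, hm⟩
  omega

theorem not_sqQ : ¬ IsSquare (2 : ℚ) := by norm_num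

theorem not_sq3 {k : Type} [Field k] [NumberField k] (h : Module.finrank ℚ k = 3) :
    ¬ IsSquare (2 : k) := by
  intro h2
  have : IsSquare ((2 : ℚ)) := sq_odd (k := k) (by rw [h]; decide) (by push_cast; exact h2)
  exact not_sqQ this

/-- two is not a square in a field of degree six with a cubic subfield and a root of `-3` -/
theorem not_sq6 {F : Type} [Field F] [NumberField F] (h : Module.finrank ℚ F = 6) {x : F}
    (hx : x ^ 2 = -3) : ¬ IsSquare (2 : F) := by
  rintro ⟨y, hy⟩
  have hirr : Irreducible (X ^ 2 - C (2 : ℚ) : ℚ[X]) := by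
    rw [X_pow_sub_C_irreducible_iff_of_prime Nat.prime_two]
    intro b hb
    exact not_sqQ ⟨b, by rw [← hb]; ring⟩
  have hint : IsIntegral ℚ y := Algebra.IsIntegral.isIntegral y
  have hmin : minpoly ℚ y = X ^ 2 - C (2 : ℚ) := by
    refine (minpoly.eq_of_irreducible_of_monic hirr ?_ (monic_X_pow_sub_C _ two_ne_zero)).symm
    rw [map_sub, map_pow, aeval_X, aeval_C, sub_eq_zero, map_ofNat, hy, sq]
  let M : IntermediateField ℚ F := IntermediateField.adjoin ℚ {y}
  have hM : Module.finrank ℚ M = 2 := by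
    rw [IntermediateField.adjoin.finrank hint, hmin, natDegree_X_pow_sub_C]
  have hMF : Module.finrank M F = 3 := by
    have := Module.finrank_mul_finrank ℚ M F
    rw [hM, h] at this
    omega
  -- `x` has degree at most two over `M`, so it lies in `M`
  have hxM : x ∈ M := by
    have hintM : IsIntegral M x := Algebra.IsIntegral.isIntegral x
    have hdvd : minpoly M x ∣ X ^ 2 + C 3 := by
      apply minpoly.dvd
      rw [map_add, map_pow, aeval_X, aeval_C, hx, map_ofNat, neg_add_cancel]
    have hne : (X ^ 2 + C 3 : M[X]) ≠ 0 := by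
      intro h0
      have := natDegree_X_pow_add_C (R := M) (n := 2) (r := 3)
      rw [h0, natDegree_zero] at this
      omega
    have hle : (minpoly M x).natDegree ≤ 2 := by
      have := natDegree_le_of_dvd hdvd hne
      rwa [natDegree_X_pow_add_C] at this
    have hd := minpoly.degree_dvd (K := M) (L := F) hintM
    rw [hMF] at hd
    have hpos : 0 < (minpoly M x).natDegree := minpoly.natDegree_pos hintM
    have h1 : (minpoly M x).natDegree = 1 := by
      rcases (Nat.dvd_prime Nat.prime_three).1 hd with h | h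
      · exact h
      · omega
    have h2 : (minpoly M x).degree = 1 := by
      rw [degree_eq_natDegree (minpoly.ne_zero hintM), h1]
      rfl
    obtain ⟨q, hq⟩ := minpoly.mem_range_of_degree_eq_one M x h2
    rw [← hq]
    exact q.2
  -- the elements of `M` are `a + b y`
  have hrep : ∃ a b : ℚ, x = a + b * y := by
    have hxM' : x ∈ IntermediateField.adjoin ℚ {y} := hxM
    rw [IntermediateField.mem_adjoin_simple_iff] at hxM'
    have hmem : x ∈ Algebra.adjoin ℚ {y} := by
      rwa [← IntermediateField.adjoin_simple_toSubalgebra_of_isAlgebraic hint.isAlgebraic,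
        IntermediateField.mem_toSubalgebra]
    obtain ⟨p, hp⟩ := Algebra.adjoin_singleton_eq_range_aeval ℚ y ▸ hmem
    have hmod : (p %ₘ (X ^ 2 - C (2 : ℚ))).natDegree < 2 := by
      have := natDegree_modByMonic_lt p (monic_X_pow_sub_C (2 : ℚ) two_ne_zero) (by
        intro h
        have h' := congrArg natDegree h
        rw [natDegree_X_pow_sub_C, natDegree_one] at h'
        omega)
      rwa [natDegree_X_pow_sub_C] at this
    refine ⟨(p %ₘ (X ^ 2 - C (2 : ℚ))).coeff 0, (p %ₘ (X ^ 2 - C (2 : ℚ))).coeff 1, ?_⟩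
    have h1 : aeval y p = aeval y (p %ₘ (X ^ 2 - C (2 : ℚ))) := by
      have h2 := modByMonic_add_div p (X ^ 2 - C (2 : ℚ))
      conv_lhs => rw [← h2]
      rw [map_add, map_mul]
      have : aeval y (X ^ 2 - C (2 : ℚ)) = 0 := by
        rw [← hmin, minpoly.aeval]
      rw [this, zero_mul, add_zero]
    have h3 : x = aeval y p := hp.symm
    rw [h3, h1]
    conv_lhs => rw [eq_X_add_C_of_natDegree_le_one (by omega : (p %ₘ (X ^ 2 - C (2 : ℚ))).natDegree ≤ 1)]
    simp only [map_add, map_mul, aeval_C, aeval_X, eq_ratCast]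
    ring
  obtain ⟨a, b, hab⟩ := hrep
  have h0 : ((a ^ 2 + 2 * b ^ 2 + 3 : ℚ) : F) + ((2 * a * b : ℚ) : F) * y = 0 := by
    push_cast
    rw [hab] at hx
    linear_combination hx + (b : F) ^ 2 * hy
  by_cases hab0 : a * b = 0
  · rw [show (2 * a * b : ℚ) = 0 by rw [mul_assoc, hab0, mul_zero], Rat.cast_zero, zero_mul,
      add_zero, Rat.cast_eq_zero] at h0
    nlinarith [sq_nonneg a, sq_nonneg b]
  · have hc : (2 * a * b : ℚ) ≠ 0 := by
      rw [mul_assoc]
      exact mul_ne_zero two_ne_zero hab0
    have hyq : y = (((-(a ^ 2 + 2 * b ^ 2 + 3)) / (2 * a * b) : ℚ) : F) := by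
      have hcF : ((2 * a * b : ℚ) : F) ≠ 0 := by rwa [Ne, Rat.cast_eq_zero]
      rw [Rat.cast_div, eq_div_iff hcF, Rat.cast_neg]
      linear_combination h0
    have hsq : IsSquare (2 : ℚ) := by
      refine ⟨(-(a ^ 2 + 2 * b ^ 2 + 3)) / (2 * a * b), ?_⟩
      have h5 : ((2 : ℚ) : F) = ((((-(a ^ 2 + 2 * b ^ 2 + 3)) / (2 * a * b)) *
          ((-(a ^ 2 + 2 * b ^ 2 + 3)) / (2 * a * b)) : ℚ) : F) := by
        rw [Rat.cast_mul, ← hyq, ← hy]
        norm_num
      exact_mod_cast h5
    exact not_sqQ hsq

end Pool.Agent.K7.H65.G5
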